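import Pool.Agent.helper65.GF.SpecG

set_option autoImplicit false

namespace Pool.Agent.GD

open Finset Metric Filter Topology

theorem YST (h1 : YNW_stmt) : YST_stmt := by
  intro p n j Q b F hjp hpn hQ hR hcv hb hbm hFm
  obtain ⟨hD, _, _, hDsq⟩ := h1 p n j hjp hpn
  have hF0 : ∀ r, r < j → F r = 0 := by
    intro r
    induction r using Nat.strong_induction_on with
    | _ r ih =>
      intro hr
      have h2 := hcv r
      rw [hb r (by omega), if_neg (by omega), mul_zero] at h2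
      unfold cv at h2
      rw [Finset.sum_range_succ, Nat.sub_self, hQ, one_mul,
        Finset.sum_eq_zero (fun m hm => by rw [ih m (mem_range.1 hm) (by have := mem_range.1 hm; omega), mul_zero]),
        zero_add] at h2
      exact h2.symm
  have hFj : F j = 2 * (j : ℂ) + 1 := by
    have h2 := hcv j
    rw [hb j hjp, if_pos rfl, mul_one] at h2
    unfold cv at h2
    rw [Finset.sum_range_succ, Nat.sub_self, hQ, one_mul,
      Finset.sum_eq_zero (fun m hm => by rw [hF0 m (mem_range.1 hm), mul_zero]), zero_add] at h2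
    exact h2.symm
  have hnorm : ∀ m : ℕ, ‖(2 * (m : ℂ) + 1)‖ = 2 * (m : ℝ) + 1 := by
    intro m
    have e : (2 * (m : ℂ) + 1) = ((2 * m + 1 : ℕ) : ℂ) := by push_cast; ring
    rw [e, Complex.norm_natCast]
    push_cast
    ring
  have hRn := hR F n
  rw [← hcv n] at hRn
  have hsplit : ∑ m ∈ range n, ‖cv Q F m‖ * ‖F m‖ =
      ∑ m ∈ range (p + 1), ‖cv Q F m‖ * ‖F m‖ + ∑ m ∈ Ioo p n, ‖cv Q F m‖ * ‖F m‖ := by
    have h1 : Ioo p n = Ico (p + 1) n := by
      ext m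
      simp only [mem_Ioo, mem_Ico]
      omega
    rw [h1]
    exact (Finset.sum_range_add_sum_Ico (fun m => ‖cv Q F m‖ * ‖F m‖) (by omega : p + 1 ≤ n)).symm
  have hfirst : ∑ m ∈ range (p + 1), ‖cv Q F m‖ * ‖F m‖ = (2 * (j : ℝ) + 1) ^ 2 := by
    rw [Finset.sum_eq_single j]
    · rw [← hcv j, hb j hjp, if_pos rfl, hFj, mul_one, hnorm]
      ring
    · intro m hm hmj
      rw [← hcv m, hb m (by have := mem_range.1 hm; omega), if_neg hmj]
      simp
    · intro h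
      exact absurd (mem_range.2 (by omega)) h
  have hsecond : ∑ m ∈ Ioo p n, ‖cv Q F m‖ * ‖F m‖ ≤
      ∑ m ∈ Ioo p n, ((2 * m + 1) * AH p m j) * ((2 * j + 1) * BH p m j) := by
    refine Finset.sum_le_sum ?_
    intro m hm
    obtain ⟨h1, h2⟩ := mem_Ioo.1 hm
    rw [← hcv m, norm_mul, hnorm]
    have h3 := hbm m h1 h2
    have h4 := hFm m h1 h2
    have h5 : (0 : ℝ) ≤ 2 * (m : ℝ) + 1 := by positivity
    have h6 : (2 * (m : ℝ) + 1) * ‖b m‖ ≤ (2 * m + 1) * AH p m j := mul_le_mul_of_nonneg_left h3 h5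
    have h7 : 0 ≤ (2 * (m : ℝ) + 1) * ‖b m‖ := mul_nonneg h5 (norm_nonneg _)
    exact mul_le_mul h6 h4 (norm_nonneg _) (h7.trans h6)
  have hle : ‖(2 * (n : ℂ) + 1) * b n - F n‖ ^ 2 ≤ ((2 * n + 1) * AH p n j - (2 * j + 1) * BH p n j) ^ 2 := by
    rw [hDsq]
    calc ‖(2 * (n : ℂ) + 1) * b n - F n‖ ^ 2 ≤ 4 * ∑ m ∈ range n, ‖cv Q F m‖ * ‖F m‖ := hRn
      _ = 4 * ((2 * (j : ℝ) + 1) ^ 2 + ∑ m ∈ Ioo p n, ‖cv Q F m‖ * ‖F m‖) := by rw [hsplit, hfirst]
      _ ≤ 4 * (2 * (j : ℝ) + 1) ^ 2 + 4 * ∑ m ∈ Ioo p n, ((2 * m + 1) * AH p m j) * ((2 * j + 1) * BH p m j) := by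
        linarith
  by_contra hcon
  have hcon' := not_le.1 hcon
  nlinarith [norm_nonneg ((2 * (n : ℂ) + 1) * b n - F n)]

end Pool.Agent.GD
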